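import Mathlib
import Pool.Agent.Q178.Ly4
import Pool.Agent.Q178.Ly7

/-!
# MP_e65cda_an: boundedness for the Lyness equation with periodic coefficients

`x_{n+1} = (α_n + x_n) / x_{n-1}` with nonnegative coefficients of least period `p ≥ 2`: all positive
solutions are bounded for all such coefficients if and only if `p = 2`.

* `p = 2`: there is an invariant function with bounded level sets, also when one of the two
  coefficients vanishes.
* `p ∉ {2, 4, 7}`: write `p = 1 + r + 6 j + 5 i` with `r ∈ {2, 4, 5}` and take the coefficients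
  `2, 0 (r + 6 j times), 1 (5 i times)`; five steps with coefficient `1` or six steps with coefficient
  `0` are the identity.
* `p = 4`: coefficients `0, 32, 0, 1/32`; `p = 7`: coefficients `32, 0, 1, 0, 0, 0, 0`.
-/

set_option autoImplicit false

namespace Pool.Agent.Results.MP_e65cda_an.OnlyPeriodTwo

open Pool.Agent.Q178.Ly4

/-- `x` is a positive solution of `x_{n+1} = (α_n + x_n) / x_{n-1}`, `n = 0, 1, 2, …`; the term `x_n`
of the problem is `x (n + 1)` here, so the initial values are `x 0`, `x 1`. -/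
def IsPositiveSolution (α : ℕ → ℝ) (x : ℕ → ℝ) : Prop :=
  0 < x 0 ∧ 0 < x 1 ∧ ∀ n, x (n + 2) = (α n + x (n + 1)) / x n

/-- `p` is the least period of `α`. -/
def LeastPeriod (α : ℕ → ℝ) (p : ℕ) : Prop :=
  0 < p ∧ (∀ n, α (n + p) = α n) ∧ ∀ q, 0 < q → q < p → ¬ ∀ n, α (n + q) = α n

/-- `p` is good: for all nonnegative coefficients with least period `p` all positive solutions are
bounded. -/
def Good (p : ℕ) : Prop :=
  ∀ α : ℕ → ℝ, (∀ n, 0 ≤ α n) → LeastPeriod α p →
    ∀ x, IsPositiveSolution α x → ∃ C : ℝ, ∀ n, x n ≤ C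

/-! ### Period two -/

/-- the invariant -/
noncomputable def V (a b x y : ℝ) : ℝ :=
  a * x + b * y + b * x / y + a * y / x + (a ^ 2 + b) / x + (b ^ 2 + a) / y + a * b / (x * y)

lemma V_step (a b x y : ℝ) (ha : 0 ≤ a) (hx : 0 < x) (hy : 0 < y) :
    V b a y ((a + y) / x) = V a b x y := by
  have h : 0 < a + y := by positivity
  unfold V
  field_simp
  ring

lemma pos_of_sol (α : ℕ → ℝ) (hα : ∀ n, 0 ≤ α n) (x : ℕ → ℝ) (hx : IsPositiveSolution α x) (n : ℕ) :
    0 < x n ∧ 0 < x (n + 1) := by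
  induction n with
  | zero => exact ⟨hx.1, hx.2.1⟩
  | succ n ih =>
    refine ⟨ih.2, ?_⟩
    rw [hx.2.2 n]
    have := hα n
    have h1 := ih.1
    have h2 := ih.2
    positivity

lemma good_two : Good 2 := by
  intro α hα hper x hx
  set a := α 0 with ha
  set b := α 1 with hb
  have ha0 : 0 ≤ a := hα 0
  have hb0 : 0 ≤ b := hα 1
  have hpos := pos_of_sol α hα x hx
  have heven : ∀ m, α (2 * m) = a := by
    intro m
    induction m with
    | zero => rfl
    | succ m ih => rw [← ih, ← hper.2.1 (2 * m)]; rfl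
  have hodd : ∀ m, α (2 * m + 1) = b := by
    intro m
    induction m with
    | zero => rfl
    | succ m ih => rw [← ih, ← hper.2.1 (2 * m + 1)]; rfl
  have hab : a ≠ b := by
    intro h
    refine hper.2.2 1 one_pos one_lt_two fun n => ?_
    obtain ⟨m, rfl | rfl⟩ := Nat.even_or_odd' n
    · rw [hodd, heven, h]
    · rw [show 2 * m + 1 + 1 = 2 * (m + 1) by ring, hodd, heven, h]
  have hinv : ∀ m, V a b (x (2 * m)) (x (2 * m + 1)) = V a b (x 0) (x 1) := by
    intro m
    induction m with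
    | zero => rfl
    | succ m ih =>
      rw [← ih]
      have e1 : x (2 * m + 2) = (a + x (2 * m + 1)) / x (2 * m) := by
        rw [hx.2.2 (2 * m), heven]
      have e2 : x (2 * m + 3) = (b + x (2 * m + 2)) / x (2 * m + 1) := by
        rw [hx.2.2 (2 * m + 1), hodd]
      have s1 := V_step a b (x (2 * m)) (x (2 * m + 1)) ha0 (hpos _).1 (hpos _).2
      have s2 := V_step b a (x (2 * m + 1)) (x (2 * m + 2)) hb0 (hpos _).1 (hpos (2 * m + 1)).2
      rw [← e1] at s1
      rw [← e2] at s2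
      rw [show 2 * (m + 1) = 2 * m + 2 by ring, show 2 * m + 2 + 1 = 2 * m + 3 by ring, s2, s1]
  set C := V a b (x 0) (x 1) with hC
  have parts : ∀ m, a * x (2 * m) ≤ C ∧ b * x (2 * m + 1) ≤ C ∧ b * x (2 * m) / x (2 * m + 1) ≤ C ∧
      a * x (2 * m + 1) / x (2 * m) ≤ C := by
    intro m
    have h := hinv m
    have p1 := (hpos (2 * m)).1
    have p2 := (hpos (2 * m)).2
    have t1 : 0 ≤ a * x (2 * m) := by positivity
    have t2 : 0 ≤ b * x (2 * m + 1) := by positivity
    have t3 : 0 ≤ b * x (2 * m) / x (2 * m + 1) := by positivity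
    have t4 : 0 ≤ a * x (2 * m + 1) / x (2 * m) := by positivity
    have t5 : 0 ≤ (a ^ 2 + b) / x (2 * m) := by positivity
    have t6 : 0 ≤ (b ^ 2 + a) / x (2 * m + 1) := by positivity
    have t7 : 0 ≤ a * b / (x (2 * m) * x (2 * m + 1)) := by positivity
    unfold V at h
    refine ⟨by linarith, by linarith, by linarith, by linarith⟩
  have hC0 : 0 ≤ C := by
    have := (parts 0).1
    have p1 := (hpos (2 * 0)).1
    have : 0 ≤ a * x (2 * 0) := by positivity
    linarith
  rcases ha0.lt_or_eq with hap | hap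
  · refine ⟨max (C / a) (C * (C / a) / a), fun n => ?_⟩
    obtain ⟨m, rfl | rfl⟩ := Nat.even_or_odd' n
    · refine le_max_of_le_left ?_
      rw [le_div_iff₀ hap]
      have := (parts m).1
      linarith
    · refine le_max_of_le_right ?_
      have p1 := (hpos (2 * m)).1
      have h1 := (parts m).1
      have h4 := (parts m).2.2.2
      rw [div_le_iff₀ p1] at h4
      have h5 : x (2 * m) ≤ C / a := by rw [le_div_iff₀ hap]; linarith
      rw [le_div_iff₀ hap]
      calc x (2 * m + 1) * a = a * x (2 * m + 1) := by ring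
        _ ≤ C * x (2 * m) := h4
        _ ≤ C * (C / a) := mul_le_mul_of_nonneg_left h5 hC0
  · have hbp : 0 < b := lt_of_le_of_ne hb0 (fun h => hab (by rw [← hap, ← h]))
    refine ⟨max (C / b) (C * (C / b) / b), fun n => ?_⟩
    obtain ⟨m, rfl | rfl⟩ := Nat.even_or_odd' n
    · refine le_max_of_le_right ?_
      have p1 := (hpos (2 * m)).2
      have h1 := (parts m).2.1
      have h4 := (parts m).2.2.1
      rw [div_le_iff₀ p1] at h4
      have h5 : x (2 * m + 1) ≤ C / b := by rw [le_div_iff₀ hbp]; linarith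
      rw [le_div_iff₀ hbp]
      calc x (2 * m) * b = b * x (2 * m) := by ring
        _ ≤ C * x (2 * m + 1) := h4
        _ ≤ C * (C / b) := mul_le_mul_of_nonneg_left h5 hC0
    · refine le_max_of_le_left ?_
      rw [le_div_iff₀ hbp]
      have := (parts m).2.1
      linarith

/-! ### The state map -/

/-- one step with coefficient `a` -/
noncomputable def M (a : ℝ) (s : ℝ × ℝ) : ℝ × ℝ := (s.2, (a + s.2) / s.1)

/-- the pair of terms `n`, `n + 1` -/
noncomputable def S (α : ℕ → ℝ) (s : ℝ × ℝ) : ℕ → ℝ × ℝ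
  | 0 => s
  | n + 1 => M (α n) (S α s n)

def Pos (s : ℝ × ℝ) : Prop := 0 < s.1 ∧ 0 < s.2

lemma M_pos {a : ℝ} (ha : 0 ≤ a) {s : ℝ × ℝ} (hs : Pos s) : Pos (M a s) := by
  have h1 := hs.1
  have h2 := hs.2
  exact ⟨hs.2, by unfold M; positivity⟩

lemma S_pos {α : ℕ → ℝ} (hα : ∀ n, 0 ≤ α n) {s : ℝ × ℝ} (hs : Pos s) (n : ℕ) : Pos (S α s n) := by
  induction n with
  | zero => exact hs
  | succ n ih => exact M_pos (hα n) ih

lemma S_sol (α : ℕ → ℝ) (s : ℝ × ℝ) (hs : Pos s) :
    IsPositiveSolution α (fun n => (S α s n).1) := by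
  refine ⟨hs.1, hs.2, fun n => rfl⟩

/-- steps along a list of coefficients -/
noncomputable def run (l : List ℝ) (s : ℝ × ℝ) : ℝ × ℝ := l.foldl (fun s a => M a s) s

lemma run_append (l m : List ℝ) (s : ℝ × ℝ) : run (l ++ m) s = run m (run l s) := by
  unfold run; rw [List.foldl_append]

lemma S_add (α : ℕ → ℝ) (s : ℝ × ℝ) (l : List ℝ) : ∀ n : ℕ,
    (∀ i, (h : i < l.length) → α (n + i) = l[i]) → S α s (n + l.length) = run l (S α s n) := by
  induction l with
  | nil => intro n _; rfl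
  | cons a l ih =>
    intro n h
    have h0 := h 0 (by simp)
    simp only [add_zero, List.getElem_cons_zero] at h0
    have h1 := ih (n + 1) (fun i hi => by
      have := h (i + 1) (by simpa using hi)
      rw [show n + 1 + i = n + (i + 1) by ring, this]; rfl)
    rw [List.length_cons, show n + (l.length + 1) = n + 1 + l.length by ring, h1]
    show run l (M (α n) (S α s n)) = run l (M a (S α s n))
    rw [h0]

/-- the periodic coefficient sequence with the list of values `w` -/
noncomputable def coef (w : List ℝ) (n : ℕ) : ℝ := w.getD (n % w.length) 0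

lemma coef_add (w : List ℝ) (n : ℕ) : coef w (n + w.length) = coef w n := by
  unfold coef; rw [Nat.add_mod_right]

lemma coef_nonneg (w : List ℝ) (hw : ∀ a ∈ w, 0 ≤ a) (n : ℕ) : 0 ≤ coef w n := by
  unfold coef
  rw [List.getD_eq_getElem?_getD]
  rcases lt_or_ge (n % w.length) w.length with h | h
  · rw [List.getElem?_eq_getElem h]
    exact hw _ (List.getElem_mem h)
  · rw [List.getElem?_eq_none h]; simp

lemma S_period (w : List ℝ) (s : ℝ × ℝ) (m : ℕ) :
    S (coef w) s (w.length * (m + 1)) = run w (S (coef w) s (w.length * m)) := by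
  rw [mul_add, mul_one]
  refine S_add _ _ _ _ fun i hi => ?_
  unfold coef
  rw [Nat.mul_add_mod, Nat.mod_eq_of_lt hi, List.getD_eq_getElem?_getD, List.getElem?_eq_getElem hi]
  rfl

lemma S_iter (w : List ℝ) (s : ℝ × ℝ) (m : ℕ) :
    S (coef w) s (w.length * m) = (run w)^[m] s := by
  induction m with
  | zero => rfl
  | succ m ih => rw [S_period, ih, Function.iterate_succ_apply']

lemma leastPeriod_coef (w : List ℝ) (a : ℝ) (l : List ℝ) (hw : w = a :: l) (ha : a ≠ 0)
    (hl : ∀ b ∈ l, b ≠ a) : LeastPeriod (coef w) w.length := by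
  refine ⟨by rw [hw]; simp, coef_add w, fun q hq0 hq h => ?_⟩
  have h0 := h 0
  have e0 : coef w 0 = a := by unfold coef; rw [hw]; simp
  have e1 : coef w (0 + q) ≠ a := by
    unfold coef
    rw [zero_add, Nat.mod_eq_of_lt hq, hw]
    obtain ⟨k, rfl⟩ : ∃ k, q = k + 1 := ⟨q - 1, by omega⟩
    rw [List.getD_cons_succ, List.getD_eq_getElem?_getD]
    rcases lt_or_ge k l.length with hk | hk
    · rw [List.getElem?_eq_getElem hk]
      exact hl _ (List.getElem_mem hk)
    · rw [List.getElem?_eq_none hk]; simpa using ha.symm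
  exact e1 (by rw [h0, e0])

/-- if the second terms of the states are unbounded then `p` is not good -/
lemma not_good_of (w : List ℝ) (hw : ∀ a ∈ w, 0 ≤ a) (hp : LeastPeriod (coef w) w.length)
    (s : ℝ × ℝ) (hs : Pos s) (hunb : ∀ C : ℝ, ∃ n, C < (S (coef w) s n).1) : ¬ Good w.length := by
  intro hg
  obtain ⟨C, hC⟩ := hg (coef w) (coef_nonneg w hw) hp _ (S_sol (coef w) s hs)
  obtain ⟨n, hn⟩ := hunb C
  exact absurd (hC n) (not_le.2 hn)

/-! ### Blocks of ones and zeros -/

lemma run_ones (s : ℝ × ℝ) (hs : Pos s) (i : ℕ) : run (List.replicate (5 * i) 1) s = s := by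
  induction i with
  | zero => rfl
  | succ i ih =>
    rw [show 5 * (i + 1) = 5 * i + 5 by ring, List.replicate_add, run_append, ih]
    obtain ⟨x, y⟩ := s
    have hx : 0 < x := hs.1
    have hy : 0 < y := hs.2
    simp only [run, List.replicate, List.foldl, M, Prod.mk.injEq]
    constructor <;> (field_simp; try ring)

lemma run_zeros (s : ℝ × ℝ) (hs : Pos s) (j : ℕ) : run (List.replicate (6 * j) 0) s = s := by
  induction j with
  | zero => rfl
  | succ j ih =>
    rw [show 6 * (j + 1) = 6 * j + 6 by ring, List.replicate_add, run_append, ih]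
    obtain ⟨x, y⟩ := s
    have hx : 0 < x := hs.1
    have hy : 0 < y := hs.2
    simp only [run, List.replicate, List.foldl, M, Prod.mk.injEq]
    constructor <;> (field_simp; try ring)

/-! ### The periods `1 + r + 6 j + 5 i`, `r ∈ {2, 4, 5}` -/

/-- the list of coefficients `2, 0 (r + 6 j times), 1 (5 i times)` -/
noncomputable def word (r j i : ℕ) : List ℝ :=
  2 :: (List.replicate r 0 ++ (List.replicate (6 * j) 0 ++ List.replicate (5 * i) 1))

lemma word_length (r j i : ℕ) : (word r j i).length = 1 + r + 6 * j + 5 * i := by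
  simp [word]; ring

lemma word_nonneg (r j i : ℕ) : ∀ a ∈ word r j i, 0 ≤ a := by
  intro a ha
  simp only [word, List.mem_cons, List.mem_append, List.mem_replicate] at ha
  rcases ha with rfl | ⟨_, rfl⟩ | ⟨_, rfl⟩ | ⟨_, rfl⟩ <;> norm_num

lemma word_period (r j i : ℕ) : LeastPeriod (coef (word r j i)) (word r j i).length := by
  refine leastPeriod_coef _ 2 _ rfl two_ne_zero fun b hb => ?_
  simp only [List.mem_append, List.mem_replicate] at hb
  rcases hb with ⟨_, rfl⟩ | ⟨_, rfl⟩ | ⟨_, rfl⟩ <;> norm_num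

lemma run_pos (l : List ℝ) (hl : ∀ a ∈ l, 0 ≤ a) (s : ℝ × ℝ) (hs : Pos s) : Pos (run l s) := by
  induction l generalizing s with
  | nil => exact hs
  | cons a l ih =>
    exact ih (fun b hb => hl b (List.mem_cons_of_mem _ hb)) _
      (M_pos (hl a List.mem_cons_self) hs)

lemma run_word (r j i : ℕ) (s : ℝ × ℝ) (hs : Pos s) :
    run (word r j i) s = run (List.replicate r 0) (M 2 s) := by
  have h1 : Pos (M 2 s) := M_pos two_pos.le hs
  have h2 : Pos (run (List.replicate r 0) (M 2 s)) :=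
    run_pos _ (fun a ha => by rw [List.eq_of_mem_replicate ha]) _ h1
  show run (List.replicate r 0 ++ (List.replicate (6 * j) 0 ++ List.replicate (5 * i) 1)) (M 2 s) = _
  rw [run_append, run_append, run_zeros _ h2, run_ones _ h2]

lemma unb_of_small (w : List ℝ) (a : ℝ) (l : List ℝ) (hw : w = a :: l) (ha : 0 < a)
    (hnn : ∀ a ∈ w, 0 ≤ a) (s : ℝ × ℝ) (hs : Pos s)
    (hsmall : ∀ ε > 0, ∃ m, ((run w)^[m] s).1 < ε) : ∀ C : ℝ, ∃ n, C < (S (coef w) s n).1 := by
  intro C
  have hC : 0 < max C 1 := lt_of_lt_of_le one_pos (le_max_right _ _)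
  obtain ⟨m, hm⟩ := hsmall (a / max C 1) (div_pos ha hC)
  rw [← S_iter] at hm
  refine ⟨w.length * m + 2, ?_⟩
  have hp := S_pos (coef_nonneg w hnn) hs (w.length * m)
  have h1 : (S (coef w) s (w.length * m + 2)).1 =
      (coef w (w.length * m) + (S (coef w) s (w.length * m)).2) / (S (coef w) s (w.length * m)).1 :=
    rfl
  have h2 : coef w (w.length * m) = a := by
    unfold coef
    rw [Nat.mul_mod_right, hw]; rfl
  have hx := hp.1
  have hy := hp.2
  rw [h1, h2, lt_div_iff₀ hx]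
  rw [lt_div_iff₀ hC] at hm
  have h3 : C ≤ max C 1 := le_max_left _ _
  nlinarith

lemma not_good_two (j i : ℕ) : ¬ Good (1 + 2 + 6 * j + 5 * i) := by
  have hF : ∀ x y : ℝ, 0 < x → 0 < y →
      run (word 2 j i) (x, y) = ((2 + y) / (x * y), 1 / y) := by
    intro x y hx hy
    rw [run_word _ _ _ _ ⟨hx, hy⟩]
    simp only [run, List.replicate, List.foldl, M, Prod.mk.injEq]
    constructor <;> (field_simp; try ring)
  have hit : ∀ m : ℕ, (run (word 2 j i))^[2 * m] (1, 1 / 2) = ((2 / 5) ^ m, 1 / 2) := by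
    intro m
    induction m with
    | zero => simp
    | succ m ih =>
      rw [show 2 * (m + 1) = 2 * m + 1 + 1 by ring, Function.iterate_succ_apply',
        Function.iterate_succ_apply', ih, hF ((2 / 5) ^ m) (1 / 2) (by positivity) (by norm_num),
        hF _ _ (by positivity) (by norm_num)]
      have : (0:ℝ) < (2 / 5) ^ m := by positivity
      simp only [Prod.mk.injEq]
      constructor
      · rw [pow_succ]; field_simp; norm_num
      · norm_num
  rw [← word_length]
  refine not_good_of _ (word_nonneg _ _ _) (word_period _ _ _) (1, 1 / 2)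
    ⟨one_pos, by norm_num⟩ (unb_of_small _ 2 _ rfl two_pos (word_nonneg _ _ _) _
      ⟨one_pos, by norm_num⟩ fun ε hε => ?_)
  obtain ⟨m, hm⟩ := exists_pow_lt_of_lt_one hε (show (2 / 5 : ℝ) < 1 by norm_num)
  exact ⟨2 * m, (congrArg Prod.fst (hit m)).trans_lt hm⟩

lemma not_good_four (j i : ℕ) : ¬ Good (1 + 4 + 6 * j + 5 * i) := by
  have hF : ∀ x y : ℝ, 0 < x → 0 < y →
      run (word 4 j i) (x, y) = (x / (2 + y), x * y / (2 + y)) := by
    intro x y hx hy
    rw [run_word _ _ _ _ ⟨hx, hy⟩]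
    simp only [run, List.replicate, List.foldl, M, Prod.mk.injEq]
    constructor <;> (field_simp; try ring)
  have hit : ∀ m : ℕ, Pos ((run (word 4 j i))^[m] (1, 1)) ∧
      ((run (word 4 j i))^[m] (1, 1)).1 ≤ (1 / 2) ^ m := by
    intro m
    induction m with
    | zero => exact ⟨⟨one_pos, one_pos⟩, by simp⟩
    | succ m ih =>
      rw [Function.iterate_succ_apply']
      set s := (run (word 4 j i))^[m] (1, 1) with hs
      obtain ⟨x, y⟩ := s
      obtain ⟨⟨hx, hy⟩, hle⟩ := ih
      simp only at hx hy hle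
      rw [hF x y hx hy]
      refine ⟨⟨by positivity, by positivity⟩, ?_⟩
      simp only
      rw [div_le_iff₀ (by positivity), pow_succ]
      nlinarith [pow_pos (show (0:ℝ) < 1 / 2 by norm_num) m]
  rw [← word_length]
  refine not_good_of _ (word_nonneg _ _ _) (word_period _ _ _) (1, 1)
    ⟨one_pos, one_pos⟩ (unb_of_small _ 2 _ rfl two_pos (word_nonneg _ _ _) _
      ⟨one_pos, one_pos⟩ fun ε hε => ?_)
  obtain ⟨m, hm⟩ := exists_pow_lt_of_lt_one hε (show (1 / 2 : ℝ) < 1 by norm_num)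
  exact ⟨m, lt_of_le_of_lt (hit m).2 hm⟩

lemma not_good_five (j i : ℕ) : ¬ Good (1 + 5 + 6 * j + 5 * i) := by
  have hF : ∀ x y : ℝ, 0 < x → 0 < y →
      run (word 5 j i) (x, y) = (x * y / (2 + y), y) := by
    intro x y hx hy
    rw [run_word _ _ _ _ ⟨hx, hy⟩]
    simp only [run, List.replicate, List.foldl, M, Prod.mk.injEq]
    constructor <;> (field_simp; try ring)
  have hit : ∀ m : ℕ, (run (word 5 j i))^[m] (1, 1) = ((1 / 3) ^ m, 1) := by
    intro m
    induction m with
    | zero => simp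
    | succ m ih =>
      rw [Function.iterate_succ_apply', ih, hF _ _ (by positivity) one_pos]
      simp only [Prod.mk.injEq, and_true]
      rw [pow_succ]; ring
  rw [← word_length]
  refine not_good_of _ (word_nonneg _ _ _) (word_period _ _ _) (1, 1)
    ⟨one_pos, one_pos⟩ (unb_of_small _ 2 _ rfl two_pos (word_nonneg _ _ _) _
      ⟨one_pos, one_pos⟩ fun ε hε => ?_)
  obtain ⟨m, hm⟩ := exists_pow_lt_of_lt_one hε (show (1 / 3 : ℝ) < 1 by norm_num)
  exact ⟨m, (congrArg Prod.fst (hit m)).trans_lt hm⟩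

/-! ### Period four -/

/-- the coefficients for the period four -/
noncomputable def word4 : List ℝ := [0, 32, 0, 1 / 32]

lemma word4_nonneg : ∀ a ∈ word4, 0 ≤ a := by
  intro a ha
  simp only [word4, List.mem_cons, List.not_mem_nil, or_false] at ha
  rcases ha with rfl | rfl | rfl | rfl <;> norm_num

lemma word4_period : LeastPeriod (coef word4) 4 := by
  refine ⟨by norm_num, coef_add word4, fun q hq0 hq h => ?_⟩
  have h0 := h 0
  have h1 := h 1
  interval_cases q <;> (simp [coef, word4] at h0 h1; try norm_num at h0 h1)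

lemma run_word4 (t s : ℝ) (ht : 0 < t) (hs : 0 < s) :
    run word4 (t, t * s) = (st 32 t s, st 32 t s * st (1 / 32) s (st 32 t s)) := by
  simp only [run, word4, List.foldl, M, Prod.mk.injEq, st]
  constructor <;> (field_simp; try ring)

lemma iter_word4 (m : ℕ) : ∃ t s : ℝ, 0 < t ∧ 0 < s ∧ t ≤ 1 / 4096 * (1 / 2) ^ m ∧
    s ≤ 1 / 4096 * (1 / 2) ^ m ∧
    (run word4)^[4 * m] (1 / 4096, 1 / 4096 * (1 / 4096)) = (t, t * s) := by
  induction m with
  | zero => exact ⟨1 / 4096, 1 / 4096, by norm_num, by norm_num, by norm_num, by norm_num, rfl⟩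
  | succ m ih =>
    obtain ⟨t, s, ht, hs, ht', hs', he⟩ := ih
    have h1 : (1 / 2 : ℝ) ^ m ≤ 1 := pow_le_one₀ (by norm_num) (by norm_num)
    have c1 : (0:ℝ) < 32 := by norm_num
    have c2 : (0:ℝ) < 1 / 32 := by norm_num
    obtain ⟨t2, h2⟩ : ∃ u, u = st 32 t s := ⟨_, rfl⟩
    obtain ⟨t3, h3⟩ : ∃ u, u = st (1 / 32) s t2 := ⟨_, rfl⟩
    obtain ⟨t4, h4⟩ : ∃ u, u = st 32 t2 t3 := ⟨_, rfl⟩
    obtain ⟨t5, h5⟩ : ∃ u, u = st (1 / 32) t3 t4 := ⟨_, rfl⟩
    obtain ⟨t6, h6⟩ : ∃ u, u = st 32 t4 t5 := ⟨_, rfl⟩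
    obtain ⟨t7, h7⟩ : ∃ u, u = st (1 / 32) t5 t6 := ⟨_, rfl⟩
    obtain ⟨t8, h8⟩ : ∃ u, u = st 32 t6 t7 := ⟨_, rfl⟩
    obtain ⟨t9, h9⟩ : ∃ u, u = st (1 / 32) t7 t8 := ⟨_, rfl⟩
    have p2 : 0 < t2 := h2 ▸ st_pos c1 ht hs
    have p3 : 0 < t3 := h3 ▸ st_pos c2 hs p2
    have p4 : 0 < t4 := h4 ▸ st_pos c1 p2 p3
    have p5 : 0 < t5 := h5 ▸ st_pos c2 p3 p4
    have p6 : 0 < t6 := h6 ▸ st_pos c1 p4 p5
    have p7 : 0 < t7 := h7 ▸ st_pos c2 p5 p6
    obtain ⟨k1, k2, k3, k4⟩ := eight t s ht hs (ht'.trans (by linarith)) (hs'.trans (by linarith))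
      t2 t3 t4 t5 t6 t7 t8 t9 h2 h3 h4 h5 h6 h7 h8 h9
    refine ⟨t8, t9, k1, k3, ?_, ?_, ?_⟩
    · rw [pow_succ]; linarith
    · rw [pow_succ]; linarith
    · rw [show 4 * (m + 1) = 4 * m + 1 + 1 + 1 + 1 by ring, Function.iterate_succ_apply',
        Function.iterate_succ_apply', Function.iterate_succ_apply', Function.iterate_succ_apply', he,
        run_word4 t s ht hs, ← h2, ← h3, run_word4 t2 t3 p2 p3, ← h4, ← h5,
        run_word4 t4 t5 p4 p5, ← h6, ← h7, run_word4 t6 t7 p6 p7, ← h8, ← h9]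

lemma not_good_p4 : ¬ Good 4 := by
  refine not_good_of word4 word4_nonneg word4_period (1 / 4096, 1 / 4096 * (1 / 4096))
    ⟨by norm_num, by norm_num⟩ fun C => ?_
  have hC : 0 < max C 1 := lt_of_lt_of_le one_pos (le_max_right _ _)
  obtain ⟨m, hm⟩ := exists_pow_lt_of_lt_one (one_div_pos.2 hC) (show (1 / 2 : ℝ) < 1 by norm_num)
  obtain ⟨t, s, ht, hs, ht', hs', he⟩ := iter_word4 m
  have h1 : (1 / 2 : ℝ) ^ m ≤ 1 := pow_le_one₀ (by norm_num) (by norm_num)
  refine ⟨word4.length * (4 * m + 1), ?_⟩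
  rw [S_iter, Function.iterate_succ_apply', he, run_word4 t s ht hs]
  simp only [st]
  have hs1 : s ≤ 1 := by linarith
  have hss : s ^ 2 ≤ 1 := by nlinarith
  have ht2 : t < 1 / max C 1 := by
    have : (0:ℝ) < (1 / 2) ^ m := by positivity
    linarith
  rw [lt_div_iff₀ hC] at ht2
  rw [lt_div_iff₀ (by positivity)]
  have h3 : C ≤ max C 1 := le_max_left _ _
  have h4 : C * (s ^ 2 * t) ≤ max C 1 * (1 * t) := by
    refine mul_le_mul h3 (mul_le_mul_of_nonneg_right hss ht.le) (by positivity) hC.le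
  nlinarith

/-! ### Period seven -/

/-- the coefficients for the period seven -/
noncomputable def word7 : List ℝ := [32, 0, 1, 0, 0, 0, 0]

lemma word7_nonneg : ∀ a ∈ word7, 0 ≤ a := by
  intro a ha
  simp only [word7, List.mem_cons, List.not_mem_nil, or_false] at ha
  rcases ha with rfl | rfl | rfl | rfl | rfl | rfl | rfl <;> norm_num

lemma word7_period : LeastPeriod (coef word7) 7 := by
  refine leastPeriod_coef word7 32 [0, 1, 0, 0, 0, 0] rfl (by norm_num) fun b hb => ?_
  simp only [List.mem_cons, List.not_mem_nil, or_false] at hb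
  rcases hb with rfl | rfl | rfl | rfl | rfl | rfl <;> norm_num

open Pool.Agent.Q178.Ly7 in
lemma run_word7 (s : ℝ × ℝ) (hs : Pos s) : run word7 s = F s := by
  obtain ⟨x, y⟩ := s
  have hx : 0 < x := hs.1
  have hy : 0 < y := hs.2
  simp only [run, word7, List.foldl, M, F, f, g, Prod.mk.injEq]
  constructor <;> (field_simp; try ring)

open Pool.Agent.Q178.Ly7 in
lemma F_pos {s : ℝ × ℝ} (hs : Pos s) : Pos (F s) := ⟨f_pos hs.1 hs.2, g_pos hs.1 hs.2⟩

open Pool.Agent.Q178.Ly7 in
lemma iter_word7 (m : ℕ) : R ((run word7)^[4 * m] (1 / 1048576, 8192)) ∧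
    8192 * 2 ^ m ≤ ((run word7)^[4 * m] (1 / 1048576, 8192)).2 := by
  induction m with
  | zero =>
    refine ⟨⟨?_, ?_, ?_⟩, ?_⟩ <;> norm_num
  | succ m ih =>
    obtain ⟨hR, hle⟩ := ih
    rw [show 4 * (m + 1) = 4 * m + 1 + 1 + 1 + 1 by ring, Function.iterate_succ_apply',
        Function.iterate_succ_apply', Function.iterate_succ_apply', Function.iterate_succ_apply']
    set s := (run word7)^[4 * m] (1 / 1048576, 8192) with hs
    have hp : Pos s := ⟨hR.1, by linarith [hR.2.1]⟩
    rw [run_word7 s hp, run_word7 _ (F_pos hp), run_word7 _ (F_pos (F_pos hp)),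
      run_word7 _ (F_pos (F_pos (F_pos hp)))]
    obtain ⟨h1, h2⟩ := four s hR
    refine ⟨h1, ?_⟩
    rw [pow_succ]; linarith

lemma not_good_p7 : ¬ Good 7 := by
  refine not_good_of word7 word7_nonneg word7_period (1 / 1048576, 8192)
    ⟨by norm_num, by norm_num⟩ fun C => ?_
  obtain ⟨m, hm⟩ := pow_unbounded_of_one_lt C (one_lt_two)
  refine ⟨word7.length * (4 * m) + 1, ?_⟩
  show C < (S (coef word7) _ (word7.length * (4 * m))).2
  rw [S_iter]
  have := (iter_word7 m).2
  have h2 : (0:ℝ) < 2 ^ m := by positivity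
  linarith

/-- **Full answer to Q1.**  Among the integers `p ≥ 2` exactly `p = 2` is good. -/
theorem result (p : ℕ) (hp : 2 ≤ p) : Good p ↔ p = 2 := by
  refine ⟨fun hg => ?_, fun h => h ▸ good_two⟩
  by_contra hne
  by_cases h4 : p = 4
  · exact not_good_p4 (h4 ▸ hg)
  by_cases h7 : p = 7
  · exact not_good_p7 (h7 ▸ hg)
  have key : ∃ j i, p = 1 + 2 + 6 * j + 5 * i ∨ p = 1 + 4 + 6 * j + 5 * i ∨
      p = 1 + 5 + 6 * j + 5 * i := by
    -- reduce modulo five
    by_cases hs : p < 23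
    · interval_cases p
      all_goals first | omega | skip
      · exact ⟨0, 0, by omega⟩
      · exact ⟨0, 0, by omega⟩
      · exact ⟨0, 0, by omega⟩
      · exact ⟨0, 1, by omega⟩
      · exact ⟨1, 0, by omega⟩
      · exact ⟨0, 1, by omega⟩
      · exact ⟨1, 0, by omega⟩
      · exact ⟨1, 0, by omega⟩
      · exact ⟨0, 2, by omega⟩
      · exact ⟨1, 1, by omega⟩
      · exact ⟨2, 0, by omega⟩
      · exact ⟨0, 2, by omega⟩
      · exact ⟨1, 1, by omega⟩
      · exact ⟨2, 0, by omega⟩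
      · exact ⟨1, 2, by omega⟩
      · exact ⟨2, 1, by omega⟩
      · exact ⟨3, 0, by omega⟩
      · exact ⟨2, 1, by omega⟩
    · have h5 : p % 5 < 5 := Nat.mod_lt _ (by norm_num)
      obtain ⟨q, hq⟩ : ∃ q, p = 5 * q + p % 5 := ⟨p / 5, (Nat.div_add_mod p 5).symm⟩
      interval_cases hr : p % 5
      · exact ⟨2, q - 3, by omega⟩
      · exact ⟨3, q - 4, by omega⟩
      · exact ⟨4, q - 5, by omega⟩
      · exact ⟨0, q, by omega⟩
      · exact ⟨1, q - 1, by omega⟩
  obtain ⟨j, i, h | h | h⟩ := key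
  · exact not_good_two j i (h ▸ hg)
  · exact not_good_four j i (h ▸ hg)
  · exact not_good_five j i (h ▸ hg)

end Pool.Agent.Results.MP_e65cda_an.OnlyPeriodTwo
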